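import Pool.Agent.H6.FB.Stmts

/-!
# Project FB, module LOC: the pair `aa`, `bb`
-/

set_option autoImplicit false

open Metric Set Filter Topology

namespace Pool.Agent.H6.FB

theorem loc_thm (hA : TTAStmt) (hB : TTBStmt) (hbb : BBBStmt) (hbd : BDBStmt) (hsq : SQAStmt)
    (hinj : INJStmt) : LOCStmt := by
  obtain ⟨he0, he1, hR1, hR2, hcR, hc1, hc2, hs1, hs2, hR3⟩ := hA
  obtain ⟨htd, ht0, hts, htr, htb, hti, htl⟩ := hB
  obtain ⟨hbdf, hb0, hbn, hb14, -⟩ := hbb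
  obtain ⟨C, hC⟩ := hbd
  have hDD : ∀ s : ℂ, s ∈ DD ↔ ‖s‖ < RR ^ 2 / 2 := fun s => by
    rw [DD, mem_ball_zero_iff]
  have hs0n : ‖((s0 : ℝ) : ℂ)‖ = s0 := by
    rw [Complex.norm_real, Real.norm_eq_abs, abs_of_pos (by linarith)]
  have hs0D : ((s0 : ℝ) : ℂ) ∈ DD := by
    rw [hDD, hs0n]; linarith
  have hAd : Differentiable ℂ AA := by
    unfold AA
    fun_prop
  refine ⟨aa, bb, RR, C, ((s0 : ℝ) : ℂ), ?_⟩
  refine ⟨hR1, by linarith, ?_, hbdf, fun s hs => (hC s hs).1, fun s hs => (hC s hs).2, hsq,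
    ?_, ?_, ?_, ?_, ?_, ?_⟩
  · exact hAd.comp_differentiableOn htd
  · exact_mod_cast (by linarith : (s0 : ℝ) ≠ 0)
  · rw [hs0n]; exact hs2
  · rw [aa, hts, AA]; simp
  · linarith
  · intro x y x' y' hx hy hx' hy' hxy hxy' h1 h2
    exact hinj x y x' y' hx hy hx' hy' ((hDD _).2 hxy) ((hDD _).2 hxy') h1 h2
  · intro x y hx hy hxy h1 h2
    have h3 := congrArg norm h2
    rw [norm_mul] at h3
    have h4 : ‖(2 : ℂ)‖ = 2 := by simp
    rw [h4] at h3
    rcases mul_eq_zero.1 h1 with h5 | h5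
    · rw [h5, zero_mul, hb0, norm_one, mul_one] at h3
      linarith
    · have h6 : tt (x * y) = 1 := by
        rw [aa, AA] at h5
        rcases mul_eq_zero.1 h5 with h7 | h7
        · exact (sub_eq_zero.1 h7).symm
        · exact absurd h7 (Complex.exp_ne_zero _)
      have h7 : x * y = ((s0 : ℝ) : ℂ) :=
        hti _ ((hDD _).2 hxy) _ hs0D (by rw [h6, hts])
      rw [h7] at h3
      have h8 : ‖x‖ * ‖y‖ = s0 := by rw [← norm_mul, h7, hs0n]
      have h9 : ‖y‖ * 14 ≤ 2 := by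
        rw [← h3]
        exact mul_le_mul_of_nonneg_left hb14 (norm_nonneg y)
      have h10 : ‖x‖ * ‖y‖ ≤ 11 / 10 * (1 / 7) :=
        mul_le_mul (by linarith) (by linarith) (norm_nonneg y) (by norm_num)
      linarith

end Pool.Agent.H6.FB
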