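import Pool.Agent.H6.FB.Stmts

/-!
# Project FB, module PLA: the automorphisms of the ball
-/

set_option autoImplicit false

open Metric Set Filter Topology

namespace Pool.Agent.H6.FB

section

variable {E : Type} [NormedAddCommGroup E] [InnerProductSpace ℂ E]

theorem pla_ee {e : E} (he : ‖e‖ = 1) : (inner ℂ e e : ℂ) = 1 := by
  rw [inner_self_eq_norm_sq_to_K, he]; simp

theorem pla_eW {e : E} (he : ‖e‖ = 1) (z : E) :
    (inner ℂ e (z - (inner ℂ e z : ℂ) • e) : ℂ) = 0 := by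
  rw [inner_sub_right, inner_smul_right, pla_ee he]; simp

/-- the norm in the coordinates -/
theorem pla_norm {e : E} (he : ‖e‖ = 1) (α β : ℂ) {W : E} (hW : (inner ℂ e W : ℂ) = 0) :
    ‖α • e + β • W‖ ^ 2 = ‖α‖ ^ 2 + ‖β‖ ^ 2 * ‖W‖ ^ 2 := by
  rw [@norm_add_sq ℂ, inner_smul_left, inner_smul_right, hW, norm_smul, norm_smul, he]
  simp [mul_pow]

theorem pla_z {e : E} (he : ‖e‖ = 1) (z : E) :
    ‖z‖ ^ 2 = ‖(inner ℂ e z : ℂ)‖ ^ 2 + ‖z - (inner ℂ e z : ℂ) • e‖ ^ 2 := by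
  have h1 := pla_norm he (inner ℂ e z : ℂ) 1 (pla_eW he z)
  have h2 : (inner ℂ e z : ℂ) • e + (1 : ℂ) • (z - (inner ℂ e z : ℂ) • e) = z := by
    rw [one_smul]; abel
  rw [h2] at h1
  rw [h1]; simp

theorem pla_one {e : E} (he : ‖e‖ = 1) {l : ℝ} (hl : |l| < 1) {z : E} (hz : ‖z‖ ≤ 1) :
    1 + (l : ℂ) * inner ℂ e z ≠ 0 := by
  intro h
  have h1 : (l : ℂ) * inner ℂ e z = -1 := by linear_combination h
  have h2 := congrArg norm h1
  rw [norm_mul, Complex.norm_real, norm_neg, norm_one, Real.norm_eq_abs] at h2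
  have h3 : ‖(inner ℂ e z : ℂ)‖ ≤ 1 := by
    have := norm_inner_le_norm (𝕜 := ℂ) e z
    rw [he, one_mul] at this
    exact this.trans hz
  have h4 : |l| * ‖(inner ℂ e z : ℂ)‖ ≤ |l| * 1 := mul_le_mul_of_nonneg_left h3 (abs_nonneg l)
  linarith

/-- the basic identity -/
theorem pla_id {e : E} (he : ‖e‖ = 1) {l : ℝ} (hl : |l| < 1) (z : E) :
    ‖(inner ℂ e z + (l : ℂ)) • e +
      ((Real.sqrt (1 - l ^ 2) : ℝ) : ℂ) • (z - (inner ℂ e z : ℂ) • e)‖ ^ 2 =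
    ‖1 + (l : ℂ) * inner ℂ e z‖ ^ 2 - (1 - l ^ 2) * (1 - ‖z‖ ^ 2) := by
  have hl2 : 0 ≤ 1 - l ^ 2 := by
    have := (abs_lt.1 hl)
    nlinarith [this.1, this.2]
  rw [pla_norm he _ _ (pla_eW he z), pla_z he z]
  rw [Complex.norm_real, Real.norm_eq_abs, sq_abs, Real.sq_sqrt hl2]
  rw [Complex.sq_norm, Complex.sq_norm, Complex.sq_norm, Complex.normSq_apply,
    Complex.normSq_apply, Complex.normSq_apply]
  simp only [Complex.add_re, Complex.add_im, Complex.ofReal_re, Complex.ofReal_im,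
    Complex.mul_re, Complex.mul_im, Complex.one_re, Complex.one_im]
  ring

theorem pla_pl {e : E} (he : ‖e‖ = 1) {l : ℝ} (hl : |l| < 1) {z : E}
    (h : 1 + (l : ℂ) * inner ℂ e z ≠ 0) :
    1 - ‖Pl l e z‖ ^ 2 = (1 - l ^ 2) * (1 - ‖z‖ ^ 2) / ‖1 + (l : ℂ) * inner ℂ e z‖ ^ 2 := by
  have h0 : ‖1 + (l : ℂ) * inner ℂ e z‖ ≠ 0 := norm_ne_zero_iff.2 h
  rw [Pl, norm_smul, mul_pow, pla_id he hl, norm_inv]
  field_simp
  ring

theorem pla_in {e : E} (he : ‖e‖ = 1) (l : ℝ) (z : E) :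
    (inner ℂ e (Pl l e z) : ℂ) = (1 + (l : ℂ) * inner ℂ e z)⁻¹ * (inner ℂ e z + (l : ℂ)) := by
  rw [Pl, inner_smul_right, inner_add_right, inner_smul_right, inner_smul_right, pla_ee he,
    pla_eW he]
  ring

end

theorem pla_thm : PLAStmt := by
  intro E _ _ e he l hl
  have hl2 : 0 < 1 - l ^ 2 := by
    have := (abs_lt.1 hl)
    nlinarith [this.1, this.2]
  refine ⟨fun z hz => ⟨pla_one he hl hz, ?_⟩, fun z hz => ?_, fun z hz => ?_, ?_⟩
  · have h1 := pla_pl he hl (pla_one he hl hz)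
    have h2 : 0 ≤ 1 - ‖Pl l e z‖ ^ 2 := by
      rw [h1]
      have : 0 ≤ 1 - ‖z‖ ^ 2 := by nlinarith [norm_nonneg z]
      positivity
    nlinarith [norm_nonneg (Pl l e z)]
  · have h0 := pla_one he hl hz.le
    have h1 := pla_pl he hl h0
    have h2 : 0 < 1 - ‖Pl l e z‖ ^ 2 := by
      rw [h1]
      have h3 : 0 < 1 - ‖z‖ ^ 2 := by nlinarith [norm_nonneg z]
      have h4 : 0 < ‖1 + (l : ℂ) * inner ℂ e z‖ := norm_pos_iff.2 h0
      positivity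
    nlinarith [norm_nonneg (Pl l e z)]
  · have hc : (1 : ℂ) - (l : ℂ) ^ 2 ≠ 0 := by
      have : ((1 - l ^ 2 : ℝ) : ℂ) ≠ 0 := Complex.ofReal_ne_zero.2 hl2.ne'
      push_cast at this
      exact this
    have h1 : 1 + ((-l : ℝ) : ℂ) * inner ℂ e (Pl l e z) =
        (1 - (l : ℂ) ^ 2) * (1 + (l : ℂ) * inner ℂ e z)⁻¹ := by
      rw [pla_in he]
      push_cast
      field_simp
      ring
    have h2 : 1 + ((-l : ℝ) : ℂ) * inner ℂ e (Pl l e z) ≠ 0 := by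
      rw [h1]
      exact mul_ne_zero hc (inv_ne_zero hz)
    refine ⟨h2, ?_⟩
    have hm : ((Real.sqrt (1 - l ^ 2) : ℝ) : ℂ) * ((Real.sqrt (1 - l ^ 2) : ℝ) : ℂ) =
        1 - (l : ℂ) ^ 2 := by
      rw [← Complex.ofReal_mul, Real.mul_self_sqrt hl2.le]
      push_cast; ring
    have hW : Pl l e z - (inner ℂ e (Pl l e z) : ℂ) • e =
        ((1 + (l : ℂ) * inner ℂ e z)⁻¹ * ((Real.sqrt (1 - l ^ 2) : ℝ) : ℂ)) •
          (z - (inner ℂ e z : ℂ) • e) := by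
      rw [pla_in he, Pl]
      module
    have hX : (inner ℂ e (Pl l e z) : ℂ) + ((-l : ℝ) : ℂ) =
        inner ℂ e z * (1 - (l : ℂ) ^ 2) * (1 + (l : ℂ) * inner ℂ e z)⁻¹ := by
      rw [pla_in he]
      push_cast
      field_simp
      ring
    rw [Pl, h1, hX, hW, neg_sq, smul_add, smul_smul, smul_smul, smul_smul]
    have e1 : ((1 - (l : ℂ) ^ 2) * (1 + (l : ℂ) * inner ℂ e z)⁻¹)⁻¹ *
        (inner ℂ e z * (1 - (l : ℂ) ^ 2) * (1 + (l : ℂ) * inner ℂ e z)⁻¹) = inner ℂ e z := by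
      field_simp
    have e2 : ((1 - (l : ℂ) ^ 2) * (1 + (l : ℂ) * inner ℂ e z)⁻¹)⁻¹ *
        ((((Real.sqrt (1 - l ^ 2) : ℝ) : ℂ)) * ((1 + (l : ℂ) * inner ℂ e z)⁻¹ *
          ((Real.sqrt (1 - l ^ 2) : ℝ) : ℂ))) = 1 := by
      have e3 : ((((Real.sqrt (1 - l ^ 2) : ℝ) : ℂ)) * ((1 + (l : ℂ) * inner ℂ e z)⁻¹ *
          ((Real.sqrt (1 - l ^ 2) : ℝ) : ℂ))) =
          (1 - (l : ℂ) ^ 2) * (1 + (l : ℂ) * inner ℂ e z)⁻¹ := by
        rw [← hm]; ring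
      rw [e3]
      exact inv_mul_cancel₀ (mul_ne_zero hc (inv_ne_zero hz))
    rw [e1, mul_assoc _ (((Real.sqrt (1 - l ^ 2) : ℝ) : ℂ)), e2, one_smul]
    abel
  · have hd : Differentiable ℂ fun z : E => (inner ℂ e z : ℂ) := (innerSL ℂ e).differentiable
    intro z hz
    have h1 : DifferentiableAt ℂ (fun z : E => (1 + (l : ℂ) * inner ℂ e z)⁻¹) z :=
      (((hd z).const_mul _).const_add _).inv hz
    refine DifferentiableAt.differentiableWithinAt ?_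
    unfold Pl
    refine h1.smul ?_
    have h2 : DifferentiableAt ℂ (fun z : E => (inner ℂ e z + (l : ℂ)) • e) z :=
      ((hd z).add_const _).smul_const e
    have h3 : DifferentiableAt ℂ (fun z : E => z - (inner ℂ e z : ℂ) • e) z :=
      differentiableAt_id.sub ((hd z).smul_const e)
    exact h2.add (h3.const_smul _)

end Pool.Agent.H6.FB
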